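import Mathlib
import Pool.Agent.Helper359.Core

/-!
Centrally symmetric plane convex bodies with packing-to-covering ratio `3/4` are ellipses.
-/

set_option autoImplicit false

namespace Pool.Agent.Results.MP_da2c1b_co.CentrallySymmetric

open MeasureTheory Filter Set
open scoped ENNReal

/-- the Euclidean plane -/
abbrev Plane := EuclideanSpace ℝ (Fin 2)

/-- `A` is a congruent copy of `K`: the image of `K` under an isometry of the plane. -/
def IsCopy (K A : Set Plane) : Prop := ∃ φ : Plane ≃ᵢ Plane, A = φ '' K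

/-- The sum of the areas of `C ∩ B_r` over the members `C` of the family, divided by the area of
the closed disc `B_r` of radius `r` around the origin. -/
noncomputable def densityAt (𝓕 : Set (Set Plane)) (r : ℝ) : ℝ≥0∞ :=
  (∑' C : {C : Set Plane // C ∈ 𝓕}, volume ((C : Set Plane) ∩ Metric.closedBall 0 r))
    / volume (Metric.closedBall (0 : Plane) r)

/-- upper density of a family -/
noncomputable def upperDensity (𝓕 : Set (Set Plane)) : ℝ≥0∞ := limsup (densityAt 𝓕) atTop

/-- lower density of a family -/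
noncomputable def lowerDensity (𝓕 : Set (Set Plane)) : ℝ≥0∞ := liminf (densityAt 𝓕) atTop

/-- packings with `K`: congruent copies with pairwise disjoint interiors -/
structure IsPacking (K : Set Plane) (𝓕 : Set (Set Plane)) : Prop where
  copies : ∀ A ∈ 𝓕, IsCopy K A
  disjoint : ∀ A ∈ 𝓕, ∀ B ∈ 𝓕, A ≠ B → Disjoint (interior A) (interior B)

/-- coverings with `K`: congruent copies whose union is the plane -/
structure IsCovering (K : Set Plane) (𝓕 : Set (Set Plane)) : Prop where
  copies : ∀ A ∈ 𝓕, IsCopy K A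
  covers : ⋃₀ 𝓕 = univ

/-- `pd(K)`: the supremum of the upper densities of the packings with `K` -/
noncomputable def pd (K : Set Plane) : ℝ≥0∞ :=
  sSup {d | ∃ 𝓕 : Set (Set Plane), IsPacking K 𝓕 ∧ d = upperDensity 𝓕}

/-- `cd(K)`: the infimum of the lower densities of the coverings with `K` -/
noncomputable def cd (K : Set Plane) : ℝ≥0∞ :=
  sInf {d | ∃ 𝓕 : Set (Set Plane), IsCovering K 𝓕 ∧ d = lowerDensity 𝓕}

/-- `K` is an ellipse: the image of the closed unit disc under an invertible affine map. -/
def IsEllipse (K : Set Plane) : Prop :=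
  ∃ f : Plane ≃ᵃ[ℝ] Plane, K = f '' Metric.closedBall (0 : Plane) 1

theorem isCopy_translate (C K : Set Plane) (c : Plane) (hK : K = (fun x => -c + x) '' C)
    (t : Plane) : IsCopy C ((fun x => t + x) '' K) := by
  refine ⟨IsometryEquiv.addLeft (t + -c), ?_⟩
  rw [hK, Set.image_image]
  apply Set.image_congr
  intro x _
  simp only [IsometryEquiv.addLeft_apply]
  abel

theorem ratio_eq {P C : ℝ≥0∞} (h : P / C = 3 / 4) : C = ENNReal.ofReal (4 / 3) * P := by
  have h34 : (3 : ℝ≥0∞) / 4 = ENNReal.ofReal (3 / 4) := by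
    rw [ENNReal.ofReal_div_of_pos (by norm_num)]
    norm_num
  have hC0 : C ≠ 0 := by
    rintro rfl
    by_cases hP : P = 0
    · rw [hP, ENNReal.zero_div, h34] at h
      have := ENNReal.ofReal_pos.mpr (by norm_num : (0:ℝ) < 3 / 4)
      rw [← h] at this
      exact lt_irrefl _ this
    · rw [ENNReal.div_zero hP, h34] at h
      exact ENNReal.ofReal_ne_top h.symm
  have hCt : C ≠ ∞ := by
    rintro rfl
    rw [div_eq_mul_inv, ENNReal.inv_top, mul_zero, h34] at h
    have h2 := ENNReal.ofReal_pos.mpr (by norm_num : (0:ℝ) < 3 / 4)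
    rw [← h] at h2
    exact lt_irrefl _ h2
  have h5 : C * (P / C) = P := ENNReal.mul_div_cancel hC0 hCt
  rw [h, h34] at h5
  rw [← h5, mul_comm C, ← mul_assoc, ← ENNReal.ofReal_mul (by norm_num)]
  norm_num

/-- A centrally symmetric plane convex body `K` with `pd(K)/cd(K) = 3/4` is an ellipse. -/
theorem result (K : Set Plane) (hcpt : IsCompact K) (hconv : Convex ℝ K)
    (hint : (interior K).Nonempty) (hsymm : ∃ c : Plane, ∀ x ∈ K, (2:ℝ) • c - x ∈ K)
    (h : pd K / cd K = 3 / 4) : IsEllipse K := by
  have h := ratio_eq h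
  obtain ⟨c, hc⟩ := hsymm
  obtain ⟨L, hL⟩ : ∃ L : Set Plane, L = (fun x => -c + x) '' K := ⟨_, rfl⟩
  have hLc : IsCompact L := by
    rw [hL]
    exact hcpt.image (by fun_prop)
  have hLconv : Convex ℝ L := by
    rw [hL]
    exact hconv.translate (-c)
  have hLs : ∀ x ∈ L, -x ∈ L := by
    rw [hL]
    rintro _ ⟨x, hx, rfl⟩
    refine ⟨(2:ℝ) • c - x, hc x hx, ?_⟩
    rw [two_smul]
    simp only
    abel
  have hLint : (interior L).Nonempty := by
    rw [hL, Helper359.translate_interior]
    exact hint.image _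
  have h0 := Helper359.nhds_zero_of_interior hLconv hLs hLint
  have hN := Helper359.isNm_gauge hLc hLconv hLs h0
  have hLe := Helper359.eq_gauge hLc hLconv h0
  have hmem : ∀ y, gauge L y ≤ 1 → y ∈ L := by
    intro y hy
    rw [← hLe]
    exact hy
  obtain ⟨R, hR⟩ := hLc.isBounded.subset_closedBall (0 : Plane)
  have hv0 : volume L ≠ 0 := by
    have := (isOpen_interior.measure_pos volume hLint).trans_le (measure_mono interior_subset)
    exact this.ne'
  have hv1 : volume L ≠ ∞ := hLc.measure_lt_top.ne
  have hcore := Helper359.core hN (δ := pd K) (θ := cd K)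
    (by rw [hLe]; exact hv0) (by rw [hLe]; exact hv1) ?_ ?_ h
  · obtain ⟨-, -, p, q, hpq, hball⟩ := hcore
    rw [hLe] at hball
    have hdet : LinearMap.det (Helper359.Lmap p q) ≠ 0 := by
      rw [Helper359.det_Lmap]; exact hpq
    refine ⟨((Helper359.Lmap p q).equivOfDetNeZero hdet).toAffineEquiv.trans
      (AffineEquiv.constVAdd ℝ Plane c), ?_⟩
    have hKL : K = (fun x => c + x) '' L := by
      rw [hL, Set.image_image]
      simp
    rw [hKL, hball, Set.image_image]
    apply Set.image_congr
    intro x _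
    rfl
  · intro a b hab
    rw [hLe]
    have hdt : Helper359.dt ((2:ℝ) • a) ((2:ℝ) • b) = 4 * Helper359.dt a b := by
      simp [Helper359.dt]; ring
    have hpos := hab.hd
    have hne : Helper359.dt ((2:ℝ) • a) ((2:ℝ) • b) ≠ 0 := by
      rw [hdt]; positivity
    have hpk : ∀ v w : ℤ × ℤ, v ≠ w → Disjoint
        (interior ((fun x => Helper359.pt ((2:ℝ) • a) ((2:ℝ) • b) v + x) '' L))
        (interior ((fun x => Helper359.pt ((2:ℝ) • a) ((2:ℝ) • b) w + x) '' L)) :=
      fun v w hvw => Helper359.packs hLc hLconv hLs h0 hab hvw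
    have hinj : Function.Injective fun v : ℤ × ℤ =>
        (fun x => Helper359.pt ((2:ℝ) • a) ((2:ℝ) • b) v + x) '' L := by
      intro v w hvw
      by_contra hne'
      have hd := hpk v w hne'
      simp only at hvw
      rw [hvw, disjoint_self, Set.bot_eq_empty, Helper359.translate_interior] at hd
      exact (hLint.image _).ne_empty hd
    have hlow := Helper359.limsup_lower hR hne hinj
    rw [hdt, abs_of_pos (by positivity)] at hlow
    refine hlow.trans ?_
    refine le_trans (b := upperDensity (Helper359.latt L ((2:ℝ) • a) ((2:ℝ) • b))) ?_ ?_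
    · exact limsup_le_limsup (Eventually.of_forall fun r => Helper359.ratioIn_le_ratioCap _ r)
    apply le_sSup
    refine ⟨Helper359.latt L ((2:ℝ) • a) ((2:ℝ) • b), ⟨?_, ?_⟩, rfl⟩
    · rintro _ ⟨v, rfl⟩
      exact isCopy_translate K L c hL _
    · rintro _ ⟨v, rfl⟩ _ ⟨w, rfl⟩ hvw
      exact hpk v w (fun hh => hvw (by rw [hh]))
  · intro a x b ha hx hb h1 h2 h3
    rw [hLe]
    have hdt : Helper359.dt (a + x) (x + b)
        = Helper359.dt a x + Helper359.dt x b + Helper359.dt a b := by
      simp [Helper359.dt]; ring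
    have hne : Helper359.dt (a + x) (x + b) ≠ 0 := by
      rw [hdt]; positivity
    have hup := Helper359.liminf_upper hR hne
    rw [hdt, abs_of_pos (by positivity)] at hup
    refine le_trans ?_ hup
    apply sInf_le
    refine ⟨Helper359.latt L (a + x) (x + b), ⟨?_, ?_⟩, rfl⟩
    · rintro _ ⟨v, rfl⟩
      exact isCopy_translate K L c hL _
    · exact Helper359.covers hLconv hLs (hmem a ha) (hmem x hx) (hmem b hb) h1 h2 h3

end Pool.Agent.Results.MP_da2c1b_co.CentrallySymmetric
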